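import Pool.Agent.Helper51.PF.Goals

/-! Project PF, packet GEO: geometric sums of roots of unity. -/

namespace Pool.Agent.Helper53.PF

open Finset Pool.Agent.Helper51.PF

theorem sin_low (p a : ℕ) (h1 : 1 ≤ a) (h2 : a < p) :
    2 * ((min a (p - a) : ℕ) : ℝ) / p ≤ Real.sin (Real.pi * a / p) := by
  have hp : (0 : ℝ) < p := by exact_mod_cast (by omega : 0 < p)
  have hpi := Real.pi_pos
  have hsub : ((p - a : ℕ) : ℝ) = (p : ℝ) - a := by
    rw [Nat.cast_sub h2.le]
  have key : ∀ m : ℕ, 2 * m ≤ p → Real.sin (Real.pi * m / p) = Real.sin (Real.pi * a / p) →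
      2 * (m : ℝ) / p ≤ Real.sin (Real.pi * a / p) := by
    intro m hm he
    have hm' : 2 * (m : ℝ) ≤ p := by exact_mod_cast hm
    have h3 := Real.mul_le_sin (x := Real.pi * m / p) (by positivity) (by
      rw [div_le_div_iff₀ hp two_pos]
      nlinarith only [hpi, hm'])
    rw [he] at h3
    refine le_trans (le_of_eq ?_) h3
    field_simp
  rcases le_total a (p - a) with h | h
  · rw [min_eq_left h]
    exact key a (by omega) rfl
  · rw [min_eq_right h]
    refine key (p - a) (by omega) ?_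
    rw [hsub, ← Real.sin_pi_sub]
    congr 1
    field_simp
    ring

theorem g_geo : G_GEO := by
  intro p a k h1 h2
  have hp : (0 : ℝ) < p := by exact_mod_cast (by omega : 0 < p)
  have hm : (0 : ℝ) < ((min a (p - a) : ℕ) : ℝ) := by
    have : 0 < min a (p - a) := by
      rw [lt_min_iff]
      omega
    exact_mod_cast this
  set m : ℝ := ((min a (p - a) : ℕ) : ℝ) with hmd
  set x : ℝ := 2 * Real.pi * a / p with hx
  set z : ℂ := Complex.exp (Complex.I * x) with hz
  have hterm : ∀ j ∈ range k, Complex.exp (2 * Real.pi * Complex.I * (a * j / p : ℝ)) = z ^ j := by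
    intro j _
    rw [hz, ← Complex.exp_nat_mul]
    congr 1
    rw [hx]
    push_cast
    ring
  rw [Finset.sum_congr rfl hterm]
  have hgeo : (∑ j ∈ range k, z ^ j) * (z - 1) = z ^ k - 1 := geom_sum_mul z k
  have hzn : ‖z‖ = 1 := by
    rw [hz, mul_comm]
    exact Complex.norm_exp_ofReal_mul_I x
  have hR : ‖z ^ k - 1‖ ≤ 2 := by
    have h3 := norm_sub_le (z ^ k) 1
    rw [norm_pow, hzn, one_pow, norm_one] at h3
    linarith only [h3]
  have hL : 4 * m / p ≤ ‖z - 1‖ := by
    rw [hz, Complex.norm_exp_I_mul_ofReal_sub_one]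
    have h4 := sin_low p a h1 h2
    have h5 : x / 2 = Real.pi * a / p := by
      rw [hx]
      ring
    rw [h5]
    refine le_trans ?_ (Real.le_norm_self _)
    have h6 : 4 * m / p = 2 * (2 * m / p) := by ring
    rw [h6]
    linarith only [h4]
  have h7 : ‖∑ j ∈ range k, z ^ j‖ * ‖z - 1‖ ≤ 2 := by
    rw [← norm_mul, hgeo]
    exact hR
  have h8 : ‖∑ j ∈ range k, z ^ j‖ * (4 * m / p) ≤ 2 :=
    le_trans (mul_le_mul_of_nonneg_left hL (norm_nonneg _)) h7
  rw [le_div_iff₀ (by positivity)]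
  have h9 : ‖∑ j ∈ range k, z ^ j‖ * (4 * m / p) = ‖∑ j ∈ range k, z ^ j‖ * (2 * m) * (2 / p) := by
    ring
  rw [h9, ← le_div_iff₀ (by positivity)] at h8
  refine h8.trans (le_of_eq ?_)
  field_simp

end Pool.Agent.Helper53.PF
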